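import Pool.Agent.Lib.MP_d9f0ae_ag.Geo
import Pool.Agent.Lib.MP_d9f0ae_ag.Lg.Main

/-! In characteristic zero, pointed curves whose Weierstrass semigroup has multiplicity `m` and
genus `g ≥ (m+1)^6` depend on at most `max (2g-2) (3g-2-ew)` parameters. -/

namespace Pool.Agent.Results.MP_d9f0ae_ag.LargeGenus
open Pool.Agent.Lib.MP_d9f0ae_ag.W3 Pool.Agent.Lib.MP_d9f0ae_ag Polynomial

theorem result (k K F : Type*) [Field k] [Field K] [Field F] [Algebra k K] [Algebra K F]
    [IsAlgClosed K] [CharZero K] (_hfg : (⊤ : IntermediateField K F).FG)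
    (htr : Algebra.trdeg K F = 1)
    (v : Valuation F (WithZero (Multiplicative ℤ))) (hv : Function.Surjective v)
    (hK : ∀ x : K, x ≠ 0 → v (algebraMap K F x) = 1)
    (S : Set ℕ) (hfin : Sᶜ.Finite) (hS : weierstrass K v = S)
    (m : ℕ) (hm : IsLeast {n ∈ S | 0 < n} m) (hg : (m + 1) ^ 6 ≤ genus S) :
    ∃ T : Finset K, (T.card : ℤ) ≤ max (2 * (genus S : ℤ) - 2) (3 * (genus S : ℤ) - 2 - ew S) ∧
      ∃ B : Module.Basis S K (regular K v),
        (∀ s : S, v (B s : F) = WithZero.exp ((s : ℕ) : ℤ)) ∧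
        ∀ s t u : S, IsAlgebraic (Algebra.adjoin k (T : Set K)) (B.repr (B s * B t) u) := by
  subst hS
  obtain ⟨⟨⟨x, hx, hvx⟩, hm0⟩, hmin⟩ := hm
  have : v.IsTrivialOn K := ⟨hK⟩
  have hx1 : 1 < v x := by
    rw [hvx, ← WithZero.exp_zero, WithZero.exp_lt_exp]; exact_mod_cast hm0
  have htx : Transcendental K x :=
    Valuation.transcendental_of_ne_one K x (fun e => by simp [e] at hx1) hx1.ne'
  have hinj := transcendental_iff_injective.1 htx
  let φ : RatFunc K →ₐ[K] F := RatFunc.liftAlgHom (aeval x)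
    (nonZeroDivisors_le_comap_nonZeroDivisors_of_injective _ hinj)
  let : Algebra (RatFunc K) F := φ.toRingHom.toAlgebra
  have : IsScalarTower K (RatFunc K) F := .of_algebraMap_eq fun c => (φ.commutes c).symm
  have e : LG.xx K F = x := by
    have := RatFunc.liftAlgHom_apply_div (aeval x)
      (nonZeroDivisors_le_comap_nonZeroDivisors_of_injective _ hinj) X 1
    rw [map_one, div_one, map_one, div_one, aeval_X] at this
    exact this
  have hA : LG.IC (regular K v) := fun f p hp hc h0 O h1 h2 => by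
    obtain ⟨q, rfl, -, hq⟩ := lifts_and_degree_eq_and_monic (f := algebraMap O F) (p := p)
      ((lifts_iff_coeff_lifts _).2 fun n => ⟨⟨_, hc n O h1 h2⟩, rfl⟩) hp
    obtain ⟨y, rfl⟩ := IsIntegrallyClosed.algebraMap_eq_of_integral (R := O) (K := F)
      ⟨q, hq, by rwa [eval_map] at h0⟩
    exact y.2
  obtain ⟨π, hπ⟩ := hv (WithZero.exp (-1))
  refine LG.main k ⟨hK, hm0, e ▸ hvx, e ▸ hx, fun f hf => eq_zero_of_lt hK hf, fun f hf =>
    residue hK htr (π := π) (fun h => by rw [h, map_zero] at hπ; exact WithZero.exp_ne_zero hπ.symm)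
      (hπ ▸ LG.exp_neg_one_lt) hf, fun f => ?_, fun f hf n h1 h2 => hmin ⟨⟨f, hf, h1⟩, h2⟩⟩
    hA _ (fun n => Iff.rfl) hfin hg
  have h3 : AlgebraicIndependent K (fun _ : Unit => x) :=
    algebraicIndependent_unique_type_iff.2 htx
  have h4 : IsAlgebraic (Algebra.adjoin K (Set.range fun _ : Unit => x)) f := by
    by_contra h5
    have h6 := ((h3.option_iff_transcendental f).2 h5).lift_cardinalMk_le_trdeg
    rw [htr] at h6
    simp at h6
  obtain ⟨⟨y, hy⟩, hy0, p, hp, hp0⟩ := h4.exists_integral_multiple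
  have hle : Algebra.adjoin K (Set.range fun _ : Unit => x) ≤ regular K v :=
    Algebra.adjoin_le (by rintro _ ⟨_, rfl⟩; exact hx)
  have hy' := hy
  rw [Set.range_const, Algebra.adjoin_singleton_eq_range_aeval] at hy'
  obtain ⟨q, rfl⟩ := hy'
  refine ⟨q, by rintro rfl; exact hy0 (Subtype.ext (by simp)), e ▸ hA _ (p.map (algebraMap _ F))
    (hp.map _) (fun n => ?_) (by rw [eval_map]; exact hp0)⟩
  rw [coeff_map]
  exact hle (p.coeff n).2

end Pool.Agent.Results.MP_d9f0ae_ag.LargeGenus
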