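import Pool.Agent.Lib.MP_d9f0ae_ag.Fin

/-! Pointed curves whose Weierstrass semigroup has three generators depend on at most
`max (2g-2) (3g-2-ew)` parameters. -/

namespace Pool.Agent.Results.MP_d9f0ae_ag.ThreeGenerators
open Pool.Agent.Lib.MP_d9f0ae_ag.W3 Finset

theorem result (k K F : Type*) [Field k] [Field K] [Field F] [Algebra k K] [Algebra K F]
    [IsAlgClosed K] (_hfg : (⊤ : IntermediateField K F).FG) (htr : Algebra.trdeg K F = 1)
    (v : Valuation F (WithZero (Multiplicative ℤ))) (hv : Function.Surjective v)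
    (hK : ∀ x : K, x ≠ 0 → v (algebraMap K F x) = 1)
    (S : Set ℕ) (hfin : Sᶜ.Finite) (hS : weierstrass K v = S)
    (h3 : {a | IsGen S a}.ncard = 3) (hchar : ∀ a, IsGen S a → (a : K) ≠ 0) :
    ∃ T : Finset K, (T.card : ℤ) ≤ max (2 * (genus S : ℤ) - 2) (3 * (genus S : ℤ) - 2 - ew S) ∧
      ∃ B : Module.Basis S K (regular K v),
        (∀ s : S, v (B s : F) = WithZero.exp ((s : ℕ) : ℤ)) ∧
        ∀ s t u : S, B.repr (B s * B t) u ∈ Algebra.adjoin k (T : Set K) := by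
  classical
  obtain ⟨a, b, c, hab, hac, hbc, hg⟩ := Set.ncard_eq_three.1 h3
  have h0 : 0 ∈ S := hS ▸ ⟨1, one_mem _, by simp⟩
  have hadd : ∀ x ∈ S, ∀ y ∈ S, x + y ∈ S := by
    rw [← hS]
    rintro x ⟨f, hf, e⟩ y ⟨g, hg, e'⟩
    exact ⟨f * g, mul_mem hf hg, by rw [map_mul, e, e', ← WithZero.exp_add]; push_cast; rfl⟩
  have ga : IsGen S a := (isGen_iff hg a).2 (by simp)
  have gb : IsGen S b := (isGen_iff hg b).2 (by simp)
  have gc : IsGen S c := (isGen_iff hg c).2 (by simp)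
  have ha : (0 : ℤ) < a := by exact_mod_cast ga.2.1
  have hb : (0 : ℤ) < b := by exact_mod_cast gb.2.1
  have hc : (0 : ℤ) < c := by exact_mod_cast gc.2.1
  obtain ⟨L⟩ := exists_Lsh ha hb hc
  have hm : Mini a b c := ⟨not_comb h0 hadd ga gb gc hab hac,
    not_comb h0 hadd gb ga gc hab.symm hbc, not_comb h0 hadd gc ga gb hac.symm hbc.symm⟩
  obtain ⟨M1, hM1⟩ := hfin.bddAbove
  have hM0 : ∀ n, M1 + 1 ≤ n → n ∈ S := fun n hn => by
    by_contra h
    have := hM1 h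
    omega
  have hnn := S3_nonneg ha hb hc
  have hM0' : ∀ n : ℤ, ((M1 + 1 : ℕ) : ℤ) ≤ n → n ∈ S3 a b c := fun n hn => by
    lift n to ℕ using (by omega)
    exact (mem_iff h0 hadd hg n).2 (hM0 n (by omega))
  obtain ⟨π, hπ⟩ := hv (WithZero.exp (-1))
  have hS1 : ∀ n : ℕ, n ∈ weierstrass K v → (n : ℤ) ∈ S3 a b c := fun n hn =>
    (mem_iff h0 hadd hg n).2 (hS ▸ hn)
  obtain ⟨b0, hb0, hb1⟩ := exists_start hK htr hπ (S3 a b c) hS1 fun n hn => by
    lift n to ℕ using hnn n hn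
    have := (mem_iff h0 hadd hg n).1 hn
    rw [← hS] at this
    exact this
  obtain ⟨M, hM, htot⟩ := L.total hm hM0'
  obtain ⟨B, T, hB, hT, hmul⟩ := exists_scaled (k := k) hnn (hM0' _ le_rfl) (hM0' _ (by omega))
    (poleFil hK htr hπ (S3 a b c) hS1) (fun w => (nA a b c (-w) - L.rho (-w) - 1).toNat)
    (fun j => L.par (by exact_mod_cast hchar a ga) (by exact_mod_cast hchar b gb)
      (by exact_mod_cast hchar c gc) (j + 1) (by omega)) M hM hb0 hb1
  obtain ⟨B', hB'⟩ := hB.exists_basis S (mem_iff h0 hadd hg)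
  refine ⟨T, ?_, B', fun s => ?_, fun s t u => ?_⟩
  · have e1 := genus_eq h0 hadd hg hM0
    have e2 := ew_le h0 hadd hg hM0
    omega
  · rw [hB']
    obtain ⟨h1, h2⟩ := hB.1 _ ((mem_iff h0 hadd hg s).2 s.2)
    by_contra h
    exact h2 (le_pred (lt_of_le_of_ne h1 h))
  · obtain ⟨J, x, hx, e⟩ := hmul _ ((mem_iff h0 hadd hg s).2 s.2) _ ((mem_iff h0 hadd hg t).2 t.2)
    rw [hB', hB', e, map_sum, Finsupp.finsetSum_apply]
    refine sum_mem fun i hi => ?_
    rw [map_smul, Finsupp.smul_apply, smul_eq_mul]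
    refine mul_mem (hx i (mem_range.1 hi)) ?_
    generalize ((s : ℕ) : ℤ) + (t : ℕ) - i = n
    by_cases hn : n ∈ S3 a b c
    · lift n to ℕ using hnn n hn
      rw [← hB' ⟨n, (mem_iff h0 hadd hg n).1 hn⟩, B'.repr_self, Finsupp.single_apply]
      split_ifs
      · exact one_mem _
      · exact zero_mem _
    · rw [hB.2 n hn, map_zero]
      exact zero_mem _

end Pool.Agent.Results.MP_d9f0ae_ag.ThreeGenerators
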